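import Mathlib

set_option autoImplicit false

namespace Pool.Agent.H770R3.Shim

open scoped InnerProductSpace ComplexOrder ComplexConjugate
open Matrix

/-- the reduced kernel `k^z` -/
noncomputable def red {X : Type*} (k : Matrix X X ℂ) (z : X) : Matrix X X ℂ :=
  Matrix.of fun x y => k x y - k x z * k z y / k z z

abbrev E (N : ℕ) := EuclideanSpace ℂ (Fin N)

/-- quadratic form attached to a kernel -/
noncomputable def Q {X : Type*} {N : ℕ} (g : Matrix X X ℂ) (F : Finset X) (h : X → E N) : ℝ :=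
  (∑ i ∈ F, ∑ j ∈ F, g i j * ⟪h i, h j⟫_ℂ).re

section basics
variable {X : Type*}

lemma psd_herm {g : Matrix X X ℂ} (hg : g.PosSemidef) (x y : X) : conj (g x y) = g y x := by
  have := hg.1.apply y x
  simpa using this

lemma psd_sum {g : Matrix X X ℂ} (hg : g.PosSemidef) (F : Finset X) (c : X → ℂ) :
    0 ≤ (∑ i ∈ F, ∑ j ∈ F, conj (c i) * g i j * c j).re := by
  classical
  have h := hg.2 (Finsupp.onFinset F (fun i => if i ∈ F then c i else 0) (by
    intro a ha; by_contra h; simp [h] at ha))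
  rw [Finsupp.onFinset_sum _ (by simp)] at h
  have e : ∀ i ∈ F, ((Finsupp.onFinset F (fun i => if i ∈ F then c i else 0) (by
    intro a ha; by_contra h; simp [h] at ha)).sum fun j xj ↦ star (if i ∈ F then c i else 0) * g i j * xj)
      = ∑ j ∈ F, conj (c i) * g i j * c j := by
    intro i hi
    rw [Finsupp.onFinset_sum _ (by simp)]
    refine Finset.sum_congr rfl fun j hj => ?_
    simp [hi, hj]
  rw [Finset.sum_congr rfl e] at h
  exact (Complex.nonneg_iff.mp h).1

lemma psd_of_sum {g : Matrix X X ℂ} (hh : ∀ x y, conj (g x y) = g y x)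
    (hs : ∀ (F : Finset X) (c : X → ℂ), 0 ≤ (∑ i ∈ F, ∑ j ∈ F, conj (c i) * g i j * c j).re) :
    g.PosSemidef := by
  refine ⟨?_, fun c => ?_⟩
  · ext x y
    simpa using hh y x
  · rw [Complex.nonneg_iff]
    constructor
    · exact hs c.support c
    · have : (starRingEnd ℂ) (c.sum fun i xi ↦ c.sum fun j xj ↦ star xi * g i j * xj)
        = (c.sum fun i xi ↦ c.sum fun j xj ↦ star xi * g i j * xj) := by
        simp only [Finsupp.sum, map_sum, map_mul, RCLike.star_def, Complex.conj_conj]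
        rw [Finset.sum_comm]
        refine Finset.sum_congr rfl fun i _ => Finset.sum_congr rfl fun j _ => ?_
        rw [hh]; ring
      exact (Complex.conj_eq_iff_im.mp this).symm

lemma psd_diag_re {g : Matrix X X ℂ} (hg : g.PosSemidef) (x : X) : 0 ≤ (g x x).re := by
  exact (Complex.nonneg_iff.mp hg.diag_nonneg).1

lemma psd_diag_im {g : Matrix X X ℂ} (hg : g.PosSemidef) (x : X) : (g x x).im = 0 := by
  exact (Complex.nonneg_iff.mp hg.diag_nonneg).2.symm

lemma psd_diag_eq {g : Matrix X X ℂ} (hg : g.PosSemidef) (x : X) : g x x = ((g x x).re : ℂ) := by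
  apply Complex.ext <;> simp [psd_diag_im hg x]

/-- if the diagonal entry vanishes then the row vanishes -/
lemma psd_zero_row {g : Matrix X X ℂ} (hg : g.PosSemidef) {z : X} (hz : g z z = 0) (y : X) :
    g z y = 0 := by
  classical
  by_cases hyz : y = z
  · rw [hyz, hz]
  by_contra hne
  -- test on c z = t * g z y , c y = -1 ... choose
  have key : ∀ t : ℝ, 0 ≤ (g y y).re - 2 * t * Complex.normSq (g z y) := by
    intro t
    have h := psd_sum hg {z, y} (fun x => if x = z then (-(t : ℂ)) * g z y else 1)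
    rw [Finset.sum_pair (Ne.symm hyz), Finset.sum_pair (Ne.symm hyz), Finset.sum_pair (Ne.symm hyz)] at h
    simp only [if_true, if_neg hyz, hz] at h
    have e1 : g y z = conj (g z y) := (psd_herm hg z y).symm
    rw [e1] at h
    have e2 : (conj (-(t:ℂ) * g z y) * 0 * (-(t:ℂ) * g z y) + conj (-(t:ℂ) * g z y) * g z y * 1 +
      (conj (1:ℂ) * conj (g z y) * (-(t:ℂ) * g z y) + conj (1:ℂ) * g y y * 1))
        = g y y - 2 * t * (g z y * conj (g z y)) := by
      simp only [map_mul, map_neg, Complex.conj_ofReal, map_one]; ring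
    rw [e2, Complex.mul_conj] at h
    have e3 : (g y y - 2 * (t:ℂ) * (Complex.normSq (g z y) : ℂ)).re = (g y y).re - 2 * t * Complex.normSq (g z y) := by
      simp
    rw [e3] at h
    exact h
  have hpos : 0 < Complex.normSq (g z y) := Complex.normSq_pos.mpr hne
  have := key (((g y y).re + 1) / (2 * Complex.normSq (g z y)))
  have e : 2 * (((g y y).re + 1) / (2 * Complex.normSq (g z y))) * Complex.normSq (g z y) = (g y y).re + 1 := by
    field_simp
  rw [e] at this
  linarith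

lemma psd_zero_col {g : Matrix X X ℂ} (hg : g.PosSemidef) {z : X} (hz : g z z = 0) (y : X) :
    g y z = 0 := by
  rw [← psd_herm hg z y, psd_zero_row hg hz y, map_zero]

variable {N : ℕ}

lemma Q_nonneg {g : Matrix X X ℂ} (hg : g.PosSemidef) (F : Finset X) (h : X → E N) :
    0 ≤ Q g F h := by
  unfold Q
  have : (∑ i ∈ F, ∑ j ∈ F, g i j * ⟪h i, h j⟫_ℂ)
      = ∑ m : Fin N, ∑ i ∈ F, ∑ j ∈ F, conj (h i m) * g i j * h j m := by
    have h1 : ∀ i ∈ F, (∑ j ∈ F, g i j * ⟪h i, h j⟫_ℂ)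
        = ∑ m : Fin N, ∑ j ∈ F, conj (h i m) * g i j * h j m := by
      intro i _
      rw [Finset.sum_comm]
      refine Finset.sum_congr rfl fun j _ => ?_
      rw [PiLp.inner_apply, Finset.mul_sum]
      refine Finset.sum_congr rfl fun m _ => ?_
      simp only [RCLike.inner_apply]
      ring
    rw [Finset.sum_congr rfl h1, Finset.sum_comm]
  rw [this, Complex.re_sum]
  exact Finset.sum_nonneg fun m _ => psd_sum hg F (fun x => h x m)

/-- completing the square at `z` -/
lemma Q_insert [DecidableEq X] {g : Matrix X X ℂ} (hg : g.PosSemidef) {F : Finset X} {z : X} (hz : z ∉ F)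
    (h : X → E N) :
    Q g (insert z F) h = Q (red g z) F h
      + (g z z).re * ‖h z + ∑ j ∈ F, (g z j / g z z) • h j‖ ^ 2 := by
  have hd : g z z = ((g z z).re : ℂ) := psd_diag_eq hg z
  have hcd : conj (g z z) = g z z := psd_herm hg z z
  have hn : ((‖h z + ∑ j ∈ F, (g z j / g z z) • h j‖ ^ 2 : ℝ) : ℂ)
      = ⟪h z + ∑ j ∈ F, (g z j / g z z) • h j, h z + ∑ j ∈ F, (g z j / g z z) • h j⟫_ℂ := by
    rw [inner_self_eq_norm_sq_to_K]; simp
  have key : (∑ i ∈ insert z F, ∑ j ∈ insert z F, g i j * ⟪h i, h j⟫_ℂ)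
      = (∑ i ∈ F, ∑ j ∈ F, red g z i j * ⟪h i, h j⟫_ℂ)
        + g z z * ((‖h z + ∑ j ∈ F, (g z j / g z z) • h j‖ ^ 2 : ℝ) : ℂ) := by
    rw [hn]
    simp only [inner_add_left, inner_add_right, sum_inner, inner_sum, inner_smul_left, inner_smul_right]
    rw [Finset.sum_insert hz, Finset.sum_insert hz]
    have h1 : ∀ i ∈ F, (∑ j ∈ insert z F, g i j * ⟪h i, h j⟫_ℂ)
        = g i z * ⟪h i, h z⟫_ℂ + ∑ j ∈ F, g i j * ⟪h i, h j⟫_ℂ := fun i _ => Finset.sum_insert hz
    rw [Finset.sum_congr rfl h1, Finset.sum_add_distrib]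
    have e1 : g z z * ∑ j ∈ F, g z j / g z z * ⟪h z, h j⟫_ℂ = ∑ j ∈ F, g z j * ⟪h z, h j⟫_ℂ := by
      rw [Finset.mul_sum]
      refine Finset.sum_congr rfl fun j _ => ?_
      by_cases h0 : g z z = 0
      · rw [psd_zero_row hg h0 j]; simp
      · field_simp
    have e2 : g z z * ∑ i ∈ F, conj (g z i / g z z) * ⟪h i, h z⟫_ℂ = ∑ i ∈ F, g i z * ⟪h i, h z⟫_ℂ := by
      rw [Finset.mul_sum]
      refine Finset.sum_congr rfl fun j _ => ?_
      rw [map_div₀, hcd, psd_herm hg]
      by_cases h0 : g z z = 0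
      · rw [psd_zero_col hg h0 j]; simp
      · field_simp
    have e3 : g z z * ∑ i ∈ F, g z i / g z z * ∑ j ∈ F, conj (g z j / g z z) * ⟪h j, h i⟫_ℂ
        = ∑ i ∈ F, ∑ j ∈ F, (g i z * g z j / g z z) * ⟪h i, h j⟫_ℂ := by
      have : ∀ i ∈ F, g z i / g z z * ∑ j ∈ F, conj (g z j / g z z) * ⟪h j, h i⟫_ℂ
        = ∑ j ∈ F, g z i / g z z * (conj (g z j / g z z) * ⟪h j, h i⟫_ℂ) := fun i _ => Finset.mul_sum _ _ _
      rw [Finset.sum_congr rfl this, Finset.sum_comm, Finset.mul_sum]
      refine Finset.sum_congr rfl fun i _ => ?_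
      rw [Finset.mul_sum]
      refine Finset.sum_congr rfl fun j _ => ?_
      rw [map_div₀, hcd, psd_herm hg]
      by_cases h0 : g z z = 0
      · rw [h0]; simp
      · field_simp
    have e4 : (∑ i ∈ F, ∑ j ∈ F, red g z i j * ⟪h i, h j⟫_ℂ)
        = (∑ i ∈ F, ∑ j ∈ F, g i j * ⟪h i, h j⟫_ℂ)
          - ∑ i ∈ F, ∑ j ∈ F, (g i z * g z j / g z z) * ⟪h i, h j⟫_ℂ := by
      rw [← Finset.sum_sub_distrib]
      refine Finset.sum_congr rfl fun i _ => ?_
      rw [← Finset.sum_sub_distrib]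
      refine Finset.sum_congr rfl fun j _ => ?_
      simp only [red, Matrix.of_apply]; ring
    rw [e4]
    simp only [mul_add, Finset.sum_add_distrib]
    rw [e1, e2, e3]
    ring
  unfold Q
  rw [key, Complex.add_re, Complex.re_mul_ofReal]

end basics

end Pool.Agent.H770R3.Shim
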