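import Pool.Agent.H770R3.ShimA

set_option autoImplicit false

namespace Pool.Agent.H770R3.Shim

open scoped InnerProductSpace ComplexOrder ComplexConjugate
open Matrix

/-- extension of a linear map dominated by a semi-norm coming from a Hilbert space -/
lemma ext_contraction {M V E' : Type*} [AddCommGroup M] [Module ℂ M]
    [NormedAddCommGroup V] [InnerProductSpace ℂ V]
    [NormedAddCommGroup E'] [InnerProductSpace ℂ E'] [FiniteDimensional ℂ E']
    (G : M →ₗ[ℂ] E') (H : Submodule ℂ M) (A : M →ₗ[ℂ] V) (hA : ∀ h ∈ H, ‖A h‖ ≤ ‖G h‖) :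
    ∃ A' : M →ₗ[ℂ] V, (∀ h ∈ H, A' h = A h) ∧ ∀ m, ‖A' m‖ ≤ ‖G m‖ := by
  let W : Submodule ℂ E' := H.map G
  let G' : H →ₗ[ℂ] W := (G.domRestrict H).codRestrict W (fun c => ⟨c, c.2, rfl⟩)
  have hsurj : Function.Surjective G' := by
    rintro ⟨w, hw⟩
    obtain ⟨m, hm, rfl⟩ := hw
    exact ⟨⟨m, hm⟩, rfl⟩
  obtain ⟨s, hs⟩ := G'.exists_rightInverse_of_surjective (LinearMap.range_eq_top.mpr hsurj)
  have hs' : ∀ w : W, G (s w : M) = w := by
    intro w
    have h1 : G' (s w) = w := by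
      have := congrArg (fun L : W →ₗ[ℂ] W => L w) hs
      simpa using this
    have h2 : ((G' (s w) : W) : E') = G (s w : M) := rfl
    rw [← h2, h1]
  let P : E' →ₗ[ℂ] W := (W.orthogonalProjectionOnto : E' →ₗ[ℂ] W)
  refine ⟨A ∘ₗ H.subtype ∘ₗ s ∘ₗ P ∘ₗ G, ?_, ?_⟩
  · intro h hh
    have hW : G h ∈ W := ⟨h, hh, rfl⟩
    have hP : P (G h) = ⟨G h, hW⟩ := by
      exact Submodule.orthogonalProjectionOnto_mem_subspace_eq_self (K := W) ⟨G h, hW⟩
    have h1 : G ((s ⟨G h, hW⟩ : M)) = G h := hs' ⟨G h, hW⟩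
    have h2 : ‖A ((s ⟨G h, hW⟩ : M) - h)‖ ≤ ‖G ((s ⟨G h, hW⟩ : M) - h)‖ :=
      hA _ (H.sub_mem (s _).2 hh)
    rw [map_sub, map_sub, h1, sub_self, norm_zero] at h2
    have h3 := norm_le_zero_iff.mp h2
    simp only [LinearMap.comp_apply, Submodule.subtype_apply, hP]
    exact sub_eq_zero.mp h3
  · intro m
    simp only [LinearMap.comp_apply, Submodule.subtype_apply]
    refine (hA _ (s _).2).trans ?_
    rw [hs']
    exact W.norm_orthogonalProjectionOnto_apply_le (G m)

lemma exists_factor {n : Type*} [Fintype n] [DecidableEq n] {A : Matrix n n ℂ} (hA : A.PosSemidef) :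
    ∃ B : Matrix n n ℂ, A = Bᴴ * B := by
  open scoped MatrixOrder in
  refine ⟨CFC.sqrt A, ?_⟩
  have h1 : (CFC.sqrt A)ᴴ = CFC.sqrt A := (CFC.sqrt_nonneg A).posSemidef.1
  rw [h1]
  exact (CFC.sqrt_mul_sqrt_self A hA.nonneg).symm

section forms
variable {X : Type*} {N : ℕ}

/-- basis vector -/
noncomputable abbrev bv (m : Fin N) : E N := EuclideanSpace.single m (1 : ℂ)

lemma expand (v : E N) : v = ∑ m, v m • bv m := by
  have := (EuclideanSpace.basisFun (Fin N) ℂ).sum_repr v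
  simpa using this.symm

/-- the matrix of the form `h ↦ ∑ g i j ⟪T i (h i), T j (h j)⟫` -/
noncomputable def formMat (g : Matrix X X ℂ) (F : Finset X) (T : X → E N →ₗ[ℂ] E N) :
    Matrix (F × Fin N) (F × Fin N) ℂ :=
  Matrix.of fun a b => g a.1 b.1 * ⟪T a.1 (bv a.2), T b.1 (bv b.2)⟫_ℂ

/-- coordinates -/
def coord (F : Finset X) (h : X → E N) : F × Fin N → ℂ := fun a => h a.1 a.2

lemma formMat_apply (g : Matrix X X ℂ) (F : Finset X) (T : X → E N →ₗ[ℂ] E N) (h : X → E N) :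
    star (coord F h) ⬝ᵥ (formMat g F T *ᵥ coord F h)
      = ∑ i ∈ F, ∑ j ∈ F, g i j * ⟪T i (h i), T j (h j)⟫_ℂ := by
  have e1 : ∀ i j : X, ⟪T i (h i), T j (h j)⟫_ℂ
      = ∑ m, ∑ l, conj (h i m) * (h j l) * ⟪T i (bv m), T j (bv l)⟫_ℂ := by
    intro i j
    conv_lhs => rw [expand (h i), expand (h j)]
    simp only [map_sum, map_smul, sum_inner, inner_sum, inner_smul_left, inner_smul_right,
      Finset.mul_sum]
    rw [Finset.sum_comm]
    refine Finset.sum_congr rfl fun m _ => Finset.sum_congr rfl fun l _ => ?_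
    ring
  simp only [dotProduct, Matrix.mulVec, Finset.mul_sum, Pi.star_apply, RCLike.star_def]
  rw [Fintype.sum_prod_type]
  rw [← Finset.sum_coe_sort F (fun i => ∑ j ∈ F, g i j * ⟪T i (h i), T j (h j)⟫_ℂ)]
  refine Finset.sum_congr rfl fun i _ => ?_
  have e2 : (∑ j ∈ F, g i j * ⟪T i (h i), T j (h j)⟫_ℂ)
      = ∑ j : F, ∑ m, ∑ l, g i j * (conj (h i m) * (h j l) * ⟪T i (bv m), T j (bv l)⟫_ℂ) := by
    rw [← Finset.sum_coe_sort F]
    refine Finset.sum_congr rfl fun j _ => ?_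
    rw [e1, Finset.mul_sum]
    refine Finset.sum_congr rfl fun m _ => ?_
    rw [Finset.mul_sum]
  rw [e2]
  conv_rhs => rw [Finset.sum_comm]
  refine Finset.sum_congr rfl fun m _ => ?_
  rw [Fintype.sum_prod_type]
  refine Finset.sum_congr rfl fun j _ => Finset.sum_congr rfl fun l _ => ?_
  simp only [coord, formMat, Matrix.of_apply]
  ring

lemma formMat_herm {g : Matrix X X ℂ} (hg : ∀ x y, conj (g x y) = g y x) (F : Finset X)
    (T : X → E N →ₗ[ℂ] E N) : (formMat g F T).IsHermitian := by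
  ext a b
  simp only [conjTranspose_apply, formMat, Matrix.of_apply, RCLike.star_def, map_mul, hg,
    inner_conj_symm]

/-- a nonnegative difference of forms is the square of a norm -/
lemma exists_G {g g' : Matrix X X ℂ} (hg : ∀ x y, conj (g x y) = g y x)
    (hg' : ∀ x y, conj (g' x y) = g' y x) (F : Finset X) (T T' : X → E N →ₗ[ℂ] E N)
    (hpos : ∀ h : X → E N, Q g' F (fun i => T' i (h i)) ≤ Q g F (fun i => T i (h i))) :
    ∃ G : (X → E N) →ₗ[ℂ] EuclideanSpace ℂ (F × Fin N),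
      ∀ h, ‖G h‖ ^ 2 = Q g F (fun i => T i (h i)) - Q g' F (fun i => T' i (h i)) := by
  classical
  let R : Matrix (F × Fin N) (F × Fin N) ℂ := formMat g F T - formMat g' F T'
  have hR : ∀ h : X → E N, (star (coord F h) ⬝ᵥ (R *ᵥ coord F h)).re
      = Q g F (fun i => T i (h i)) - Q g' F (fun i => T' i (h i)) := by
    intro h
    simp only [R, Matrix.sub_mulVec, dotProduct_sub, formMat_apply, Complex.sub_re, Q]
  have hRh : R.IsHermitian := (formMat_herm hg F T).sub (formMat_herm hg' F T')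
  have hRp : R.PosSemidef := by
    refine Matrix.PosSemidef.of_dotProduct_mulVec_nonneg hRh fun c => ?_
    let h : X → E N := fun i => if hi : i ∈ F then WithLp.toLp 2 (fun m => c (⟨i, hi⟩, m)) else 0
    have hc : coord F h = c := by
      ext ⟨i, m⟩
      simp [coord, h]
    rw [Complex.nonneg_iff]
    constructor
    · rw [← hc, hR]
      exact sub_nonneg.mpr (hpos h)
    · exact (hRh.im_star_dotProduct_mulVec_self c).symm
  obtain ⟨B, hB⟩ := exists_factor hRp
  refine ⟨(WithLp.linearEquiv 2 ℂ (F × Fin N → ℂ)).symm.toLinearMap ∘ₗ B.mulVecLin ∘ₗ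
    { toFun := fun h => coord F h
      map_add' := fun a b => rfl
      map_smul' := fun a b => rfl }, fun h => ?_⟩
  rw [← hR h, hB]
  rw [← Matrix.mulVec_mulVec, Matrix.dotProduct_mulVec, ← Matrix.star_mulVec]
  rw [EuclideanSpace.norm_sq_eq]
  simp only [dotProduct, Complex.re_sum]
  refine Finset.sum_congr rfl fun a _ => ?_
  simp only [LinearMap.comp_apply, Matrix.mulVecLin_apply,
    LinearEquiv.coe_coe, WithLp.linearEquiv_symm_apply, Pi.star_apply, RCLike.star_def]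
  rw [← Complex.normSq_eq_conj_mul_self, Complex.ofReal_re, Complex.normSq_eq_norm_sq]
  rfl

end forms

end Pool.Agent.H770R3.Shim
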