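import Pool.Agent.H770R3.ShimB

set_option autoImplicit false

namespace Pool.Agent.H770R3.Shim

open scoped InnerProductSpace ComplexOrder ComplexConjugate
open Matrix

section tnp
variable {X : Type*} {N : ℕ}

lemma Q_congr (g : Matrix X X ℂ) {F : Finset X} {h h' : X → E N} (e : ∀ i ∈ F, h i = h' i) :
    Q g F h = Q g F h' := by
  unfold Q
  congr 1
  exact Finset.sum_congr rfl fun i hi => Finset.sum_congr rfl fun j hj => by rw [e i hi, e j hj]

lemma Q_insert_zero [DecidableEq X] (g : Matrix X X ℂ) {F : Finset X} {z : X} (hz : z ∉ F)
    {h : X → E N} (h0 : h z = 0) : Q g (insert z F) h = Q g F h := by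
  unfold Q
  congr 1
  rw [Finset.sum_insert hz]
  have h1 : ∑ j ∈ insert z F, g z j * ⟪h z, h j⟫_ℂ = 0 :=
    Finset.sum_eq_zero fun j _ => by rw [h0, inner_zero_left, mul_zero]
  rw [h1, zero_add]
  refine Finset.sum_congr rfl fun i _ => ?_
  rw [Finset.sum_insert hz, h0, inner_zero_right, mul_zero, zero_add]

/-- the one-point extension property of a pair of kernels -/
def OnePoint (N : ℕ) (k l : Matrix X X ℂ) : Prop :=
  ∀ (F : Finset X) (z : X), z ∉ F → ∀ S : X → E N →ₗ[ℂ] E N,
    (∀ h : X → E N, Q k F (fun i => S i (h i)) ≤ Q l F h) →
    ∀ h : X → E N, Q (red k z) F (fun i => S i (h i)) ≤ Q (red l z) F h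

lemma red_herm {g : Matrix X X ℂ} (hg : g.PosSemidef) (z x y : X) :
    conj (red g z x y) = red g z y x := by
  simp only [red, Matrix.of_apply, map_sub, map_div₀, map_mul, psd_herm hg]
  ring

/-- tangential interpolation: partial data extend to full data -/
theorem tnp {k l : Matrix X X ℂ} (hk : k.PosSemidef) (hl : l.PosSemidef)
    (hOP : OnePoint N k l) : ∀ (n : ℕ) (F : Finset X), F.card = n →
    ∀ (H : X → Submodule ℂ (E N)) (T : X → E N →ₗ[ℂ] E N),
      (∀ h : X → E N, (∀ i ∈ F, h i ∈ H i) → Q k F (fun i => T i (h i)) ≤ Q l F h) →
      ∃ S : X → E N →ₗ[ℂ] E N, (∀ i ∈ F, ∀ v ∈ H i, S i v = T i v) ∧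
        ∀ h : X → E N, Q k F (fun i => S i (h i)) ≤ Q l F h := by
  classical
  intro n
  induction n with
  | zero =>
    intro F hF H T _
    rw [Finset.card_eq_zero] at hF
    subst hF
    exact ⟨T, by simp, fun h => by simp [Q]⟩
  | succ n ih =>
    intro F hF H T hT
    have claim : ∀ D : Finset X, D ⊆ F → ∃ T' : X → E N →ₗ[ℂ] E N,
        (∀ i ∈ F, ∀ v ∈ H i, T' i v = T i v) ∧
        ∀ h : X → E N, (∀ i ∈ F, i ∉ D → h i ∈ H i) →
          Q k F (fun i => T' i (h i)) ≤ Q l F h := by
      intro D
      induction D using Finset.induction_on with
      | empty => exact fun _ => ⟨T, fun _ _ _ _ => rfl, fun h hh => hT h fun i hi => hh i hi (by simp)⟩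
      | insert z D hzD ihD =>
        intro hD
        have hzF : z ∈ F := hD (Finset.mem_insert_self _ _)
        obtain ⟨T', hT'1, hT'2⟩ := ihD (fun x hx => hD (Finset.mem_insert_of_mem hx))
        set F' := F.erase z with hF'
        have hins : insert z F' = F := Finset.insert_erase hzF
        have hzF' : z ∉ F' := Finset.notMem_erase z F
        have hcard : F'.card = n := by rw [Finset.card_erase_of_mem hzF, hF]; rfl
        have hne : ∀ i ∈ F', i ≠ z := fun i hi => Finset.ne_of_mem_erase hi
        let HD : X → Submodule ℂ (E N) := fun i => if i ∈ D then ⊤ else H i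
        obtain ⟨S', hS'1, hS'2⟩ := ih F' hcard HD T' (by
          intro h hh
          have h1 := hT'2 (Function.update h z 0) (by
            intro i hi hiD
            by_cases hiz : i = z
            · subst hiz; simp
            · rw [Function.update_of_ne hiz]
              have := hh i (Finset.mem_erase.mpr ⟨hiz, hi⟩)
              simpa [HD, hiD] using this)
          rw [← hins, Q_insert_zero k hzF' (by simp), Q_insert_zero l hzF' (by simp)] at h1
          have e1 : Q k F' (fun i => T' i (Function.update h z 0 i)) = Q k F' (fun i => T' i (h i)) :=
            Q_congr k fun i hi => by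
              rw [Function.update_of_ne (hne i hi)]
          have e2 : Q l F' (Function.update h z 0) = Q l F' h :=
            Q_congr l fun i hi => by
              rw [Function.update_of_ne (hne i hi)]
          rw [e1, e2] at h1
          exact h1)
        have hR := hOP F' z hzF' S' hS'2
        -- agreement of T' and S' on the partial data
        have agree : ∀ h : X → E N, (∀ i ∈ F, i ∉ insert z D → h i ∈ H i) →
            ∀ i ∈ F', T' i (h i) = S' i (h i) := by
          intro h hh i hi
          rw [hS'1 i hi]
          by_cases hiD : i ∈ D
          · simp [HD, hiD]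
          · simp only [HD, if_neg hiD]
            apply hh i (Finset.mem_of_mem_erase hi)
            rw [Finset.mem_insert]
            rintro (rfl | h2)
            · exact hzF' hi
            · exact hiD h2
        have hlz : ∀ h : X → E N, Q (red l z) F' h ≤ Q l F h := by
          intro h
          rw [← hins, Q_insert hl hzF']
          have := psd_diag_re hl z
          nlinarith [sq_nonneg ‖h z + ∑ j ∈ F', (l z j / l z z) • h j‖]
        by_cases hkz : k z z = 0
        · refine ⟨T', hT'1, fun h hh => ?_⟩
          rw [← hins, Q_insert hk hzF', hins, hkz]
          simp only [Complex.zero_re, zero_mul, add_zero]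
          rw [Q_congr (red k z) (agree h hh)]
          exact (hR h).trans (hlz h)
        · have hkpos : 0 < (k z z).re := by
            rcases (psd_diag_re hk z).lt_or_eq with h | h
            · exact h
            · exact absurd (by rw [psd_diag_eq hk z, ← h]; simp) hkz
          set r : ℝ := Real.sqrt (k z z).re with hr
          have hrpos : 0 < r := Real.sqrt_pos.mpr hkpos
          have hr2 : r ^ 2 = (k z z).re := Real.sq_sqrt hkpos.le
          have eS : ∀ h : X → E N, Q (red k z) F (fun i => (Function.update S' z 0) i (h i))
              = Q (red k z) F' (fun i => S' i (h i)) := by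
            intro h
            rw [← hins, Q_insert_zero _ hzF' (by simp)]
            exact Q_congr _ fun i hi => by
              rw [Function.update_of_ne (hne i hi)]
          obtain ⟨G, hG⟩ := exists_G (psd_herm hl) (red_herm hk z) F (fun _ => LinearMap.id)
            (Function.update S' z 0) (by
              intro h
              rw [eS]
              exact (hR h).trans (hlz h))
          have hG' : ∀ h, ‖G h‖ ^ 2 = Q l F h - Q (red k z) F' (fun i => S' i (h i)) := by
            intro h
            rw [hG h, eS]
            rfl
          let A : (X → E N) →ₗ[ℂ] E N :=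
            (r : ℂ) • (T' z ∘ₗ LinearMap.proj z + ∑ j ∈ F', (k z j / k z z) • (S' j ∘ₗ LinearMap.proj j))
          have hA : ∀ h : X → E N, A h = (r : ℂ) • (T' z (h z) + ∑ j ∈ F', (k z j / k z z) • S' j (h j)) := by
            intro h
            simp [A]
          let HH : Submodule ℂ (X → E N) :=
            { carrier := {h | ∀ i ∈ F, i ∉ D → h i ∈ H i}
              add_mem' := fun {a b} ha hb i hi hiD => (H i).add_mem (ha i hi hiD) (hb i hi hiD)
              zero_mem' := fun i _ _ => (H i).zero_mem
              smul_mem' := fun c a ha i hi hiD => (H i).smul_mem c (ha i hi hiD) }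
          have hHH : ∀ h : X → E N, h ∈ HH ↔ ∀ i ∈ F, i ∉ D → h i ∈ H i := fun h => Iff.rfl
          have normA : ∀ v : E N, ‖(r : ℂ) • v‖ ^ 2 = (k z z).re * ‖v‖ ^ 2 := by
            intro v
            rw [norm_smul, mul_pow, Complex.norm_real, Real.norm_eq_abs, sq_abs, hr2]
          have sumeq : ∀ h : X → E N, (∀ i ∈ F, i ∉ insert z D → h i ∈ H i) →
              ∑ j ∈ F', (k z j / k z z) • T' j (h j) = ∑ j ∈ F', (k z j / k z z) • S' j (h j) :=
            fun h hh => Finset.sum_congr rfl fun j hj => by rw [agree h hh j hj]
          obtain ⟨A', hA'1, hA'2⟩ := ext_contraction G HH A (by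
            intro h hh
            rw [hHH] at hh
            have hh' : ∀ i ∈ F, i ∉ insert z D → h i ∈ H i := fun i hi hiD =>
              hh i hi (fun e => hiD (Finset.mem_insert_of_mem e))
            have h1 := hT'2 h hh
            rw [← hins, Q_insert hk hzF', hins, Q_congr (red k z) (agree h hh'), sumeq h hh'] at h1
            rw [← sq_le_sq₀ (norm_nonneg _) (norm_nonneg _), hG', hA, normA]
            linarith)
          let Sz : E N →ₗ[ℂ] E N := ((r : ℂ)⁻¹) • (A' ∘ₗ LinearMap.single ℂ (fun _ => E N) z)
          have hSz : ∀ v, Sz v = (r : ℂ)⁻¹ • A' (Pi.single z v) := fun v => rfl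
          have hrc : (r : ℂ) ≠ 0 := by exact_mod_cast hrpos.ne'
          refine ⟨Function.update T' z Sz, ?_, ?_⟩
          · intro i hi v hv
            by_cases hiz : i = z
            · subst hiz
              rw [Function.update_self, hSz, hA'1 _ ?_, hA]
              · rw [smul_smul, inv_mul_cancel₀ hrc, one_smul, ← hT'1 i hi v hv, Pi.single_eq_same]
                have : ∑ j ∈ F', (k i j / k i i) • S' j ((Pi.single i v : X → E N) j) = 0 :=
                  Finset.sum_eq_zero fun j hj => by
                    rw [Pi.single_eq_of_ne (hne j hj), map_zero, smul_zero]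
                rw [this, add_zero]
              · rw [hHH]
                intro j hj hjD
                by_cases hji : j = i
                · subst hji; rw [Pi.single_eq_same]; exact hv
                · rw [Pi.single_eq_of_ne hji]; exact (H j).zero_mem
            · rw [Function.update_of_ne hiz]
              exact hT'1 i hi v hv
          · intro h hh
            rw [← hins, Q_insert hk hzF', hins]
            have c1 : Q (red k z) F' (fun i => (Function.update T' z Sz) i (h i))
                = Q (red k z) F' (fun i => S' i (h i)) := by
              refine Q_congr _ fun i hi => ?_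
              rw [Function.update_of_ne (hne i hi)]
              exact agree h hh i hi
            have c2 : ∑ j ∈ F', (k z j / k z z) • (Function.update T' z Sz) j (h j)
                = ∑ j ∈ F', (k z j / k z z) • S' j (h j) := by
              refine Finset.sum_congr rfl fun j hj => ?_
              rw [Function.update_of_ne (hne j hj), agree h hh j hj]
            rw [c1, c2, Function.update_self]
            have c3 : (r : ℂ) • (Sz (h z) + ∑ j ∈ F', (k z j / k z z) • S' j (h j)) = A' h := by
              have d1 : h = Pi.single z (h z) + Function.update h z 0 := by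
                ext1 i
                by_cases hiz : i = z
                · subst hiz; simp
                · simp [hiz]
              have d2 : A' (Function.update h z 0) = A (Function.update h z 0) := by
                apply hA'1
                rw [hHH]
                intro i hi hiD
                by_cases hiz : i = z
                · subst hiz; rw [Function.update_self]; exact (H i).zero_mem
                · rw [Function.update_of_ne hiz]
                  apply hh i hi
                  rw [Finset.mem_insert]
                  rintro (e | e)
                  · exact hiz e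
                  · exact hiD e
              conv_rhs => rw [d1, map_add, d2, hA]
              rw [smul_add, hSz, smul_smul, mul_inv_cancel₀ hrc, one_smul]
              congr 2
              rw [Function.update_self, map_zero, zero_add]
              refine Finset.sum_congr rfl fun j hj => ?_
              rw [Function.update_of_ne (hne j hj)]
            have c4 := normA (Sz (h z) + ∑ j ∈ F', (k z j / k z z) • S' j (h j))
            rw [c3] at c4
            rw [← c4]
            have c5 := hG' h
            have c6 : ‖A' h‖ ^ 2 ≤ ‖G h‖ ^ 2 := by
              rw [sq_le_sq₀ (norm_nonneg _) (norm_nonneg _)]; exact hA'2 h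
            linarith
    obtain ⟨S, hS1, hS2⟩ := claim F (Finset.Subset.refl F)
    exact ⟨S, hS1, fun h => hS2 h fun i hi hi' => absurd hi hi'⟩

end tnp

end Pool.Agent.H770R3.Shim
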