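import Pool.Agent.H770R3.ShimC

set_option autoImplicit false

namespace Pool.Agent.H770R3.Shim

open scoped InnerProductSpace ComplexOrder ComplexConjugate
open Matrix

section duality
variable {ι : Type*} [Fintype ι] [DecidableEq ι]

/-- the bilinear pairing of matrices -/
def pr (A M : ι → ι → ℂ) : ℂ := ∑ i, ∑ j, A i j * M i j

lemma psd_of_univ {M : Matrix ι ι ℂ} (hh : ∀ x y, conj (M x y) = M y x)
    (hs : ∀ c : ι → ℂ, 0 ≤ (∑ i, ∑ j, conj (c i) * M i j * c j).re) : M.PosSemidef := by
  refine psd_of_sum hh fun F c => ?_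
  have := hs (fun i => if i ∈ F then c i else 0)
  convert this using 2
  rw [← Finset.sum_subset (Finset.subset_univ F)]
  · refine Finset.sum_congr rfl fun i hi => ?_
    rw [← Finset.sum_subset (Finset.subset_univ F)]
    · refine Finset.sum_congr rfl fun j hj => ?_
      simp [hi, hj]
    · intro j _ hj; simp [hj]
  · intro i _ hi; simp [hi]

lemma psd_univ {M : Matrix ι ι ℂ} (hM : M.PosSemidef) (c : ι → ℂ) :
    0 ≤ (∑ i, ∑ j, conj (c i) * M i j * c j).re := psd_sum hM Finset.univ c

/-- Hermitian part -/
noncomputable def hp (a : ι → ι → ℂ) : Matrix ι ι ℂ := Matrix.of fun i j => (a i j + conj (a j i)) / 2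

omit [DecidableEq ι] in
lemma pr_hp (a M : ι → ι → ℂ) (hM : ∀ i j, conj (M i j) = M j i) :
    (pr a M).re = (pr (hp a) M).re := by
  have h1 : pr (hp a) M = (pr a M + conj (pr a M)) / 2 := by
    have h2 : conj (pr a M) = ∑ i, ∑ j, conj (a j i) * M i j := by
      unfold pr
      simp only [map_sum, map_mul, hM]
      rw [Finset.sum_comm]
    rw [h2]
    unfold pr hp
    rw [← Finset.sum_add_distrib, Finset.sum_div]
    refine Finset.sum_congr rfl fun i _ => ?_
    rw [← Finset.sum_add_distrib, Finset.sum_div]
    refine Finset.sum_congr rfl fun j _ => ?_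
    simp only [Matrix.of_apply]; ring
  rw [h1, Complex.add_conj]
  simp

lemma hp_psd (a : ι → ι → ℂ)
    (h : ∀ M : Matrix ι ι ℂ, M.PosSemidef → 0 ≤ (pr a M).re) : (hp a).PosSemidef := by
  refine psd_of_univ ?_ fun c => ?_
  · intro i j
    simp only [hp, Matrix.of_apply, map_div₀, map_add, Complex.conj_conj, map_ofNat]
    ring
  · have hM : (Matrix.of fun i j => conj (c i) * c j : Matrix ι ι ℂ).PosSemidef := by
      have := Matrix.posSemidef_vecMulVec_star_self c
      convert this using 1
      ext i j
      simp [vecMulVec_apply]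
    have h1 := h _ hM
    have h1' := pr_hp a (Matrix.of fun i j => conj (c i) * c j : Matrix ι ι ℂ)
      (by intro i j; simp [mul_comm])
    rw [h1'] at h1
    convert h1 using 2
    unfold pr
    refine Finset.sum_congr rfl fun i _ => Finset.sum_congr rfl fun j _ => ?_
    simp only [Matrix.of_apply]; ring

/-- the cone of triples of positive semidefinite matrices -/
def cone3 (ι : Type*) : Set (Fin 3 × ι × ι → ℂ) :=
  {x | ∀ t : Fin 3, (Matrix.of fun i j => x (t, i, j) : Matrix ι ι ℂ).PosSemidef}

/-- the affine map -/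
def aff (l k u w : Matrix ι ι ℂ) (p : ι → ι → ℂ) : Fin 3 × ι × ι → ℂ :=
  fun a => ![p a.2.1 a.2.2, u a.2.1 a.2.2 - p a.2.1 a.2.2 * l a.2.1 a.2.2,
    p a.2.1 a.2.2 * k a.2.1 a.2.2 - w a.2.1 a.2.2] a.1

/-- the compact convex set of Hermitian matrices with bounded entries -/
def ball3 (ι : Type*) (R : ℝ) : Set (ι → ι → ℂ) :=
  {p | (∀ i j, ‖p i j‖ ≤ R) ∧ ∀ i j, conj (p i j) = p j i}

omit [DecidableEq ι] in
lemma ball3_compact (R : ℝ) : IsCompact (ball3 ι R) := by
  apply Metric.isCompact_of_isClosed_isBounded
  · apply IsClosed.and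
    · simp only [Set.ofPred_forall]
      refine isClosed_iInter fun i => isClosed_iInter fun j => ?_
      exact isClosed_le (by fun_prop) continuous_const
    · simp only [Set.ofPred_forall]
      refine isClosed_iInter fun i => isClosed_iInter fun j => ?_
      exact isClosed_eq (by fun_prop) (by fun_prop)
  · rw [isBounded_iff_forall_norm_le]
    refine ⟨max R 0, fun p hp => ?_⟩
    refine (pi_norm_le_iff_of_nonneg (le_max_right _ _)).mpr fun i => ?_
    refine (pi_norm_le_iff_of_nonneg (le_max_right _ _)).mpr fun j => ?_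
    exact (hp.1 i j).trans (le_max_left _ _)

lemma cone3_closed : IsClosed (cone3 ι) := by
  have : cone3 ι = {x | ∀ t : Fin 3, (∀ i j, conj (x (t, i, j)) = x (t, j, i)) ∧
      ∀ c : ι → ℂ, 0 ≤ (∑ i, ∑ j, conj (c i) * x (t, i, j) * c j).re} := by
    ext x
    constructor
    · intro h t
      exact ⟨fun i j => psd_herm (h t) i j, fun c => psd_univ (h t) c⟩
    · intro h t
      exact psd_of_univ (h t).1 (h t).2
  rw [this]
  simp only [Set.ofPred_forall]
  refine isClosed_iInter fun t => ?_
  apply IsClosed.and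
  · simp only [Set.ofPred_forall]
    refine isClosed_iInter fun i => isClosed_iInter fun j => ?_
    exact isClosed_eq (by fun_prop) (by fun_prop)
  · simp only [Set.ofPred_forall]
    refine isClosed_iInter fun c => ?_
    exact isClosed_le continuous_const (by fun_prop)

omit [Fintype ι] [DecidableEq ι] in
lemma cone3_smul {x : Fin 3 × ι × ι → ℂ} (hx : x ∈ cone3 ι) {s : ℝ} (hs : 0 ≤ s) :
    s • x ∈ cone3 ι := by
  intro t
  have := (hx t).smul hs
  convert this using 1
  ext i j
  simp

omit [Fintype ι] [DecidableEq ι] in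
lemma cone3_add {x y : Fin 3 × ι × ι → ℂ} (hx : x ∈ cone3 ι) (hy : y ∈ cone3 ι) :
    x + y ∈ cone3 ι := by
  intro t
  have := (hx t).add (hy t)
  convert this using 1
  ext i j
  simp

theorem dual_lemma {l k u w : Matrix ι ι ℂ} (hl : ∀ i j, conj (l i j) = l j i)
    (hk : ∀ i j, conj (k i j) = k j i) (hu : ∀ i j, conj (u i j) = u j i)
    (hw : ∀ i j, conj (w i j) = w j i) (hl0 : ∀ i, 0 < (l i i).re)
    (hul : ∀ i, (u i i).re ≤ (l i i).re)
    (hd : ∀ B C : Matrix ι ι ℂ, B.PosSemidef → C.PosSemidef → (B ⊙ l - C ⊙ k).PosSemidef →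
      (pr C w).re ≤ (pr B u).re) :
    ∃ p : Matrix ι ι ℂ, p.PosSemidef ∧ (u - p ⊙ l).PosSemidef ∧ (p ⊙ k - w).PosSemidef := by
  by_contra hcon
  set R : ℝ := (Fintype.card ι : ℝ) with hR
  have hconv : Convex ℝ (aff l k u w '' ball3 ι R) := by
    rintro _ ⟨p, hp, rfl⟩ _ ⟨q, hq, rfl⟩ a b ha hb hab
    refine ⟨fun i j => (a : ℂ) * p i j + (b : ℂ) * q i j, ⟨fun i j => ?_, fun i j => ?_⟩, ?_⟩
    · calc ‖(a : ℂ) * p i j + (b : ℂ) * q i j‖ ≤ ‖(a : ℂ) * p i j‖ + ‖(b : ℂ) * q i j‖ := norm_add_le _ _
        _ = a * ‖p i j‖ + b * ‖q i j‖ := by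
          rw [norm_mul, norm_mul, Complex.norm_real, Complex.norm_real, Real.norm_of_nonneg ha,
            Real.norm_of_nonneg hb]
        _ ≤ a * R + b * R := add_le_add (mul_le_mul_of_nonneg_left (hp.1 i j) ha)
            (mul_le_mul_of_nonneg_left (hq.1 i j) hb)
        _ = R := by rw [← add_mul, hab, one_mul]
    · simp only [map_add, map_mul, Complex.conj_ofReal, hp.2, hq.2]
    · have habc : (a : ℂ) + b = 1 := by exact_mod_cast hab
      ext ⟨t, i, j⟩
      simp only [aff, Pi.add_apply, Pi.smul_apply, Complex.real_smul]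
      fin_cases t
      · simp
      · simp only [Fin.mk_one, Matrix.cons_val_one, Matrix.cons_val_zero]
        linear_combination (-u i j) * habc
      · simp only [Fin.reduceFinMk, Matrix.cons_val]
        linear_combination (w i j) * habc
  have hcomp : IsCompact (aff l k u w '' ball3 ι R) := by
    refine (ball3_compact R).image ?_
    refine continuous_pi fun a => ?_
    obtain ⟨t, i, j⟩ := a
    fin_cases t <;> simp [aff] <;> fun_prop
  have hcc : Convex ℝ (cone3 ι) := by
    intro x hx y hy a b ha hb _
    exact cone3_add (cone3_smul hx ha) (cone3_smul hy hb)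
  have hdisj : Disjoint (aff l k u w '' ball3 ι R) (cone3 ι) := by
    rw [Set.disjoint_left]
    rintro _ ⟨p, hp, rfl⟩ hc
    refine hcon ⟨Matrix.of p, ?_, ?_, ?_⟩
    · have := hc 0
      simpa [aff] using this
    · have := hc 1
      convert this using 1
      ext i j
      simp [aff]
    · have := hc 2
      convert this using 1
      ext i j
      simp [aff]
  obtain ⟨f, c1, c2, hf1, hc12, hf2⟩ := RCLike.geometric_hahn_banach_compact_closed (𝕜 := ℂ)
    hconv hcomp hcc cone3_closed hdisj
  have h0 : (0 : Fin 3 × ι × ι → ℂ) ∈ cone3 ι := by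
    intro t
    have := (Matrix.PosSemidef.zero : (0 : Matrix ι ι ℂ).PosSemidef)
    convert this using 1
    ext i j
    simp
  have hc2 : c2 < 0 := by simpa using hf2 0 h0
  have hpos : ∀ x ∈ cone3 ι, 0 ≤ (f x).re := by
    intro x hx
    by_contra hneg
    push Not at hneg
    have h1 := hf2 _ (cone3_smul hx (s := c2 / (f x).re) (div_nonneg_of_nonpos hc2.le hneg.le))
    have h2 : f ((c2 / (f x).re) • x) = ((c2 / (f x).re : ℝ) : ℂ) * f x := by
      have : ((c2 / (f x).re) • x) = ((c2 / (f x).re : ℝ) : ℂ) • x := by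
        ext a; simp
      rw [this, map_smul, smul_eq_mul]
    rw [h2] at h1
    simp only [RCLike.re_to_complex, Complex.re_ofReal_mul] at h1
    rw [div_mul_cancel₀ _ hneg.ne] at h1
    exact lt_irrefl _ h1
  -- coefficients
  let a : Fin 3 → ι → ι → ℂ := fun t i j => f (fun b => if (t, i, j) = b then 1 else 0)
  have hf : ∀ x : Fin 3 × ι × ι → ℂ, f x = pr (a 0) (fun i j => x (0, i, j))
      + pr (a 1) (fun i j => x (1, i, j)) + pr (a 2) (fun i j => x (2, i, j)) := by
    intro x
    have h1 := LinearMap.pi_apply_eq_sum_univ (f : (Fin 3 × ι × ι → ℂ) →ₗ[ℂ] ℂ) x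
    have h2 : (f : (Fin 3 × ι × ι → ℂ) →ₗ[ℂ] ℂ) x = f x := rfl
    rw [← h2, h1, Fintype.sum_prod_type, Fin.sum_univ_three]
    have h3 : ∀ t : Fin 3, (∑ y : ι × ι, x (t, y) • (f : (Fin 3 × ι × ι → ℂ) →ₗ[ℂ] ℂ)
        fun b => if (t, y) = b then 1 else 0) = pr (a t) (fun i j => x (t, i, j)) := by
      intro t
      rw [Fintype.sum_prod_type]
      unfold pr
      refine Finset.sum_congr rfl fun i _ => Finset.sum_congr rfl fun j _ => ?_
      rw [smul_eq_mul, mul_comm]
      rfl
    rw [h3, h3, h3]
  have hpsd : ∀ t, (hp (a t)).PosSemidef := by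
    intro t
    refine hp_psd _ fun M hM => ?_
    have h1 := hpos (fun b => if b.1 = t then M b.2.1 b.2.2 else 0) (by
      intro s
      by_cases hst : s = t
      · subst hst
        have e1 : (Matrix.of fun i j => M i j : Matrix ι ι ℂ) = M := by ext i j; rfl
        simpa [e1] using hM
      · have := (Matrix.PosSemidef.zero : (0 : Matrix ι ι ℂ).PosSemidef)
        convert this using 1
        ext i j
        simp [hst])
    rw [hf] at h1
    have z0 : ∀ s : Fin 3, s ≠ t → pr (a s) (fun i j => if s = t then M i j else 0) = 0 := by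
      intro s hs
      unfold pr
      simp [hs]
    fin_cases t
    · simpa [pr] using h1
    · simpa [pr] using h1
    · simpa [pr] using h1
  set A := hp (a 0) with hA
  set B := hp (a 1) with hB
  set C := hp (a 2) with hC
  have hAh := psd_herm (hpsd 0)
  have hBh := psd_herm (hpsd 1)
  have hCh := psd_herm (hpsd 2)
  -- the strict inequality
  have hstrict : ∀ p ∈ ball3 ι R, (pr A p).re + (pr B (fun i j => u i j - p i j * l i j)).re
      + (pr C (fun i j => p i j * k i j - w i j)).re < 0 := by
    intro p hp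
    have h1 := (hf1 _ ⟨p, hp, rfl⟩).trans (hc12.trans hc2)
    rw [hf] at h1
    simp only [RCLike.re_to_complex, Complex.add_re] at h1
    rw [pr_hp (a 0) _ (by intro i j; simp [aff, hp.2]),
      pr_hp (a 1) _ (by intro i j; simp [aff, hp.2, hu, hl]),
      pr_hp (a 2) _ (by intro i j; simp [aff, hp.2, hk, hw])] at h1
    simpa [aff] using h1
  -- the error term
  let e : ι → ι → ℂ := fun i j => A i j - B i j * l i j + C i j * k i j
  have heh : ∀ i j, conj (e i j) = e j i := by
    intro i j
    simp only [e, map_add, map_sub, map_mul]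
    rw [hAh, hBh, hCh, hl, hk]
  let ε : ℝ := ∑ i, ∑ j, ‖e i j‖
  have hε : 0 ≤ ε := Finset.sum_nonneg fun i _ => Finset.sum_nonneg fun j _ => norm_nonneg _
  have hmain : R * ε + (pr B u).re - (pr C w).re < 0 := by
    let p : ι → ι → ℂ := fun i j => (R : ℂ) * (conj (e i j) / ‖e i j‖)
    have hpb : p ∈ ball3 ι R := by
      constructor
      · intro i j
        simp only [p, norm_mul, Complex.norm_real, norm_div, RCLike.norm_conj, norm_norm]
        rw [Real.norm_of_nonneg (by positivity)]
        have : ‖e i j‖ / ‖e i j‖ ≤ 1 := div_self_le_one _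
        have hR0 : 0 ≤ R := by positivity
        nlinarith
      · intro i j
        simp only [p, map_mul, map_div₀, Complex.conj_ofReal, Complex.conj_conj]
        rw [← heh i j, Complex.conj_conj, RCLike.norm_conj]
    have h1 := hstrict p hpb
    have h2 : (pr A p).re + (pr B (fun i j => u i j - p i j * l i j)).re
      + (pr C (fun i j => p i j * k i j - w i j)).re = R * ε + (pr B u).re - (pr C w).re := by
      have h3 : pr A p + pr B (fun i j => u i j - p i j * l i j)
        + pr C (fun i j => p i j * k i j - w i j) = (∑ i, ∑ j, e i j * p i j) + pr B u - pr C w := by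
        unfold pr
        rw [← Finset.sum_add_distrib, ← Finset.sum_add_distrib, ← Finset.sum_add_distrib,
          ← Finset.sum_sub_distrib]
        refine Finset.sum_congr rfl fun i _ => ?_
        rw [← Finset.sum_add_distrib, ← Finset.sum_add_distrib, ← Finset.sum_add_distrib,
          ← Finset.sum_sub_distrib]
        refine Finset.sum_congr rfl fun j _ => ?_
        simp only [e]; ring
      have h4 : (∑ i, ∑ j, e i j * p i j) = ((R * ε : ℝ) : ℂ) := by
        simp only [ε, Finset.mul_sum, Complex.ofReal_sum]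
        refine Finset.sum_congr rfl fun i _ => Finset.sum_congr rfl fun j _ => ?_
        simp only [p]
        by_cases h0 : e i j = 0
        · simp [h0]
        · have hn : (‖e i j‖ : ℂ) ≠ 0 := by simpa using h0
          have : e i j * conj (e i j) = (‖e i j‖ : ℂ) * ‖e i j‖ := by
            rw [Complex.mul_conj, Complex.normSq_eq_norm_sq]; push_cast; ring
          field_simp
          push_cast
          linear_combination (R : ℂ) * this
      have h5 := congrArg Complex.re h3
      rw [h4] at h5
      simp only [Complex.add_re, Complex.sub_re, Complex.ofReal_re] at h5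
      exact h5
    rw [h2] at h1
    exact h1
  -- correct `B`
  let D : Matrix ι ι ℂ := Matrix.diagonal fun i => ((ε / (l i i).re : ℝ) : ℂ)
  have hD : D.PosSemidef := by
    refine Matrix.PosSemidef.diagonal fun i => ?_
    have : 0 ≤ ε / (l i i).re := div_nonneg hε (hl0 i).le
    show (0 : ℂ) ≤ _
    exact_mod_cast this
  have hBD : (B + D).PosSemidef := (hpsd 1).add hD
  have hl_im : ∀ i, l i i = ((l i i).re : ℂ) := by
    intro i
    have := hl i i
    rw [Complex.conj_eq_iff_real] at this
    obtain ⟨r, hr⟩ := this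
    rw [hr]; simp
  have hfin := hd (B + D) C hBD (hpsd 2) (by
    refine psd_of_univ ?_ fun c => ?_
    · intro i j
      simp only [Matrix.sub_apply, Matrix.hadamard_apply, map_sub, map_mul]
      rw [psd_herm hBD, hl, hCh, hk]
    · have h1 : (∑ i, ∑ j, conj (c i) * ((B + D) ⊙ l - C ⊙ k) i j * c j)
          = (∑ i, ∑ j, conj (c i) * A i j * c j) - (∑ i, ∑ j, conj (c i) * e i j * c j)
            + ∑ i, (ε : ℂ) * (conj (c i) * c i) := by
        have h2 : ∀ i, (ε : ℂ) * (conj (c i) * c i) = ∑ j, conj (c i) * (D i j * l i j) * c j := by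
          intro i
          rw [Finset.sum_eq_single i]
          · simp only [D, Matrix.diagonal_apply_eq]
            rw [hl_im i]
            have : ((l i i).re : ℂ) ≠ 0 := by exact_mod_cast (hl0 i).ne'
            push_cast
            simp only [Complex.ofReal_re]
            field_simp
          · intro j _ hj
            simp [D, Matrix.diagonal_apply_ne _ (Ne.symm hj)]
          · simp
        rw [Finset.sum_congr rfl fun i _ => h2 i, ← Finset.sum_sub_distrib, ← Finset.sum_add_distrib]
        refine Finset.sum_congr rfl fun i _ => ?_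
        rw [← Finset.sum_sub_distrib, ← Finset.sum_add_distrib]
        refine Finset.sum_congr rfl fun j _ => ?_
        simp only [Matrix.sub_apply, Matrix.hadamard_apply, Matrix.add_apply, e]
        ring
      rw [h1]
      simp only [Complex.add_re, Complex.sub_re, Complex.re_sum, Complex.re_ofReal_mul]
      have h3 := psd_univ (hpsd 0) c
      simp only [Complex.re_sum] at h3
      have h4 : ∑ i, ∑ j, (conj (c i) * e i j * c j).re ≤ ∑ i, ε * (conj (c i) * c i).re := by
        set m : ℝ := ∑ i, ‖c i‖ ^ 2 with hm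
        have hcm : ∀ i, ‖c i‖ ^ 2 ≤ m := fun i =>
          Finset.single_le_sum (f := fun i => ‖c i‖ ^ 2) (fun j _ => sq_nonneg _) (Finset.mem_univ i)
        have h5 : ∀ i j, (conj (c i) * e i j * c j).re ≤ ‖e i j‖ * m := by
          intro i j
          refine (Complex.re_le_norm _).trans ?_
          rw [norm_mul, norm_mul, RCLike.norm_conj]
          have h6 : ‖c i‖ * ‖c j‖ ≤ m := by
            nlinarith [hcm i, hcm j, sq_nonneg (‖c i‖ - ‖c j‖)]
          nlinarith [norm_nonneg (e i j)]
        have h7 : ∑ i, ε * (conj (c i) * c i).re = ε * m := by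
          rw [← Finset.mul_sum]
          congr 1
          refine Finset.sum_congr rfl fun i _ => ?_
          rw [← Complex.normSq_eq_conj_mul_self, Complex.ofReal_re, Complex.normSq_eq_norm_sq]
        rw [h7]
        simp only [ε]
        rw [Finset.sum_mul]
        refine Finset.sum_le_sum fun i _ => ?_
        rw [Finset.sum_mul]
        exact Finset.sum_le_sum fun j _ => h5 i j
      linarith)
  have hlast : (pr (B + D) u).re ≤ (pr B u).re + R * ε := by
    have h1 : pr (B + D) u = pr B u + ∑ i, ((ε / (l i i).re : ℝ) : ℂ) * u i i := by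
      have h2 : ∀ i, ((ε / (l i i).re : ℝ) : ℂ) * u i i = ∑ j, D i j * u i j := by
        intro i
        rw [Finset.sum_eq_single i]
        · simp only [D, Matrix.diagonal_apply_eq]
        · intro j _ hj
          simp [D, Matrix.diagonal_apply_ne _ (Ne.symm hj)]
        · simp
      rw [Finset.sum_congr rfl fun i _ => h2 i]
      unfold pr
      rw [← Finset.sum_add_distrib]
      refine Finset.sum_congr rfl fun i _ => ?_
      rw [← Finset.sum_add_distrib]
      refine Finset.sum_congr rfl fun j _ => ?_
      simp only [Matrix.add_apply]; ring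
    rw [h1, Complex.add_re]
    simp only [Complex.re_sum, Complex.re_ofReal_mul]
    have h3 : ∑ i, ε / (l i i).re * (u i i).re ≤ ∑ _i : ι, ε := by
      refine Finset.sum_le_sum fun i _ => ?_
      rw [div_mul_eq_mul_div, div_le_iff₀ (hl0 i)]
      exact mul_le_mul_of_nonneg_left (hul i) hε
    simp only [Finset.sum_const, Finset.card_univ, nsmul_eq_mul] at h3
    linarith
  linarith

end duality

end Pool.Agent.H770R3.Shim
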