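import Pool.Agent.H770R3.ShimD

set_option autoImplicit false

namespace Pool.Agent.H770R3.Shim

open scoped InnerProductSpace ComplexOrder ComplexConjugate
open Matrix

section fincert
variable {X : Type*}

lemma red_zero_row {g : Matrix X X ℂ} (hg : g.PosSemidef) (z y : X) : red g z z y = 0 := by
  simp only [red, Matrix.of_apply]
  by_cases h0 : g z z = 0
  · rw [psd_zero_row hg h0 y]; simp
  · field_simp; ring

lemma red_zero_col {g : Matrix X X ℂ} (hg : g.PosSemidef) (z y : X) : red g z y z = 0 := by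
  rw [← red_herm hg z z y, red_zero_row hg z y, map_zero]

lemma red_diag_le {g : Matrix X X ℂ} (hg : g.PosSemidef) (z x : X) :
    (red g z x x).re ≤ (g x x).re := by
  simp only [red, Matrix.of_apply, Complex.sub_re]
  have h1 : g x z * g z x / g z z = ((Complex.normSq (g z x) / (g z z).re : ℝ) : ℂ) := by
    rw [← psd_herm hg z x, mul_comm, Complex.mul_conj]
    conv_lhs => rw [psd_diag_eq hg z]
    push_cast
    rfl
  rw [h1, Complex.ofReal_re]
  have := div_nonneg (Complex.normSq_nonneg (g z x)) (psd_diag_re hg z)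
  linarith

/-- existence of a certificate on a finite set not containing `z` -/
theorem fin_cert {k l : Matrix X X ℂ} (hk : k.PosSemidef) (hl : l.PosSemidef)
    (hOP : ∀ N, OnePoint N k l) (F : Finset X) (hl0 : ∀ x ∈ F, l x x ≠ 0) (z : X) (hz : z ∉ F) :
    ∃ p : Matrix F F ℂ, p.PosSemidef ∧
      ((red l z).submatrix (fun i : F => (i : X)) (fun i : F => (i : X))
        - p ⊙ l.submatrix (fun i : F => (i : X)) (fun i : F => (i : X))).PosSemidef ∧
      (p ⊙ k.submatrix (fun i : F => (i : X)) (fun i : F => (i : X))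
        - (red k z).submatrix (fun i : F => (i : X)) (fun i : F => (i : X))).PosSemidef := by
  classical
  have hlpos : ∀ x ∈ F, 0 < (l x x).re := by
    intro x hx
    rcases (psd_diag_re hl x).lt_or_eq with h | h
    · exact h
    · exact absurd (by rw [psd_diag_eq hl x, ← h]; simp) (hl0 x hx)
  refine dual_lemma (fun i j => psd_herm hl _ _) (fun i j => psd_herm hk _ _)
    (fun i j => red_herm hl _ _ _) (fun i j => red_herm hk _ _ _) (fun i => hlpos _ i.2)
    (fun i => red_diag_le hl _ _) ?_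
  intro B C hB hC hBC
  obtain ⟨P, hP⟩ := exists_factor hB
  obtain ⟨R, hR⟩ := exists_factor hC
  let N := F.card
  let e : F ≃ Fin N := F.equivFin
  let x : X → E N := fun i => if hi : i ∈ F then WithLp.toLp 2 (fun m => P (e.symm m) ⟨i, hi⟩) else 0
  let y : X → E N := fun i => if hi : i ∈ F then WithLp.toLp 2 (fun m => R (e.symm m) ⟨i, hi⟩) else 0
  have hx : ∀ i j : F, ⟪x i, x j⟫_ℂ = B i j := by
    intro i j
    rw [hP, PiLp.inner_apply, Matrix.mul_apply, ← e.symm.sum_comp]
    refine Finset.sum_congr rfl fun m _ => ?_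
    simp [x, mul_comm]
  have hy : ∀ i j : F, ⟪y i, y j⟫_ℂ = C i j := by
    intro i j
    rw [hR, PiLp.inner_apply, Matrix.mul_apply, ← e.symm.sum_comp]
    refine Finset.sum_congr rfl fun m _ => ?_
    simp [y, mul_comm]
  let T : X → E N →ₗ[ℂ] E N := fun i =>
    ((‖x i‖ ^ 2 : ℝ) : ℂ)⁻¹ • ((innerSL ℂ (x i)).toLinearMap.smulRight (y i))
  have hT : ∀ i v, T i v = ((‖x i‖ ^ 2 : ℝ) : ℂ)⁻¹ • (⟪x i, v⟫_ℂ • y i) := fun i v => rfl
  -- images of the vectors
  have hTx : ∀ i, x i ≠ 0 → T i (x i) = y i := by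
    intro i hi
    rw [hT, inner_self_eq_norm_sq_to_K, smul_smul]
    have : ((‖x i‖ ^ 2 : ℝ) : ℂ) ≠ 0 := by
      have := norm_ne_zero_iff.mpr hi
      exact_mod_cast pow_ne_zero 2 this
    have e2 : ((‖x i‖ : ℂ)) ^ 2 = ((‖x i‖ ^ 2 : ℝ) : ℂ) := by push_cast; rfl
    simp only [Complex.coe_algebraMap] at *
    rw [e2, inv_mul_cancel₀ this, one_smul]
  have hTx0 : ∀ i, x i = 0 → T i (x i) = 0 := by
    intro i hi
    rw [hi, map_zero]
  have hker : ∀ i : F, x i = 0 → C i i = 0 ∨ k i i = 0 := by
    intro i hi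
    have h1 : B i i = 0 := by rw [← hx, hi, inner_zero_left]
    have h2 := psd_diag_re hBC i
    simp only [Matrix.sub_apply, Matrix.hadamard_apply, Matrix.submatrix_apply, h1, zero_mul,
      zero_sub, Complex.neg_re] at h2
    have h3 := psd_diag_re hC i
    have h4 := psd_diag_re hk (i : X)
    rw [psd_diag_eq hC i, psd_diag_eq hk (i : X), ← Complex.ofReal_mul, Complex.ofReal_re] at h2
    have h5 : (C i i).re * (k i i).re = 0 := by nlinarith [mul_nonneg h3 h4]
    rcases mul_eq_zero.mp h5 with h | h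
    · left; rw [psd_diag_eq hC i, h]; simp
    · right; rw [psd_diag_eq hk (i : X), h]; simp
  have key : ∀ g : Matrix X X ℂ, (∀ i : X, k i i = 0 → ∀ j, g i j = 0 ∧ g j i = 0) →
      ∀ i j : F, g i j * ⟪T i (x i), T j (x j)⟫_ℂ = C i j * g i j := by
    intro g hg i j
    by_cases hi : x i = 0
    · rw [hTx0 i hi, inner_zero_left, mul_zero]
      rcases hker i hi with h | h
      · rw [psd_zero_row hC h j, zero_mul]
      · rw [(hg i h j).1, mul_zero]
    · by_cases hj : x j = 0
      · rw [hTx0 j hj, inner_zero_right, mul_zero]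
        rcases hker j hj with h | h
        · rw [psd_zero_col hC h i, zero_mul]
        · rw [(hg j h i).2, mul_zero]
      · rw [hTx i hi, hTx j hj, hy, mul_comm]
  have hkz : ∀ i : X, k i i = 0 → ∀ j, k i j = 0 ∧ k j i = 0 := fun i hi j =>
    ⟨psd_zero_row hk hi j, psd_zero_col hk hi j⟩
  have hrkz : ∀ i : X, k i i = 0 → ∀ j, red k z i j = 0 ∧ red k z j i = 0 := by
    intro i hi j
    simp only [red, Matrix.of_apply]
    rw [psd_zero_row hk hi j, psd_zero_row hk hi z, psd_zero_col hk hi j, psd_zero_col hk hi z]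
    simp
  obtain ⟨S, hS1, hS2⟩ := tnp hk hl (hOP N) F.card F rfl (fun i => Submodule.span ℂ {x i}) T (by
    intro h hh
    have hα : ∀ i : X, ∃ α : ℂ, i ∈ F → h i = α • x i := by
      intro i
      by_cases hi : i ∈ F
      · obtain ⟨α, hα⟩ := Submodule.mem_span_singleton.mp (hh i hi)
        exact ⟨α, fun _ => hα.symm⟩
      · exact ⟨0, fun h => absurd h hi⟩
    choose α hα using hα
    have h1 := psd_univ hBC (fun i => α i)
    have h2 : (∑ i : F, ∑ j : F, conj (α i) * (B ⊙ l.submatrix (fun i : F => (i : X)) (fun i : F => (i : X))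
        - C ⊙ k.submatrix (fun i : F => (i : X)) (fun i : F => (i : X))) i j * α j)
        = (∑ i ∈ F, ∑ j ∈ F, l i j * ⟪h i, h j⟫_ℂ)
          - ∑ i ∈ F, ∑ j ∈ F, k i j * ⟪T i (h i), T j (h j)⟫_ℂ := by
      rw [← Finset.sum_sub_distrib, ← Finset.sum_coe_sort F]
      refine Finset.sum_congr rfl fun i _ => ?_
      rw [← Finset.sum_sub_distrib, ← Finset.sum_coe_sort F]
      refine Finset.sum_congr rfl fun j _ => ?_
      rw [hα i i.2, hα j j.2, map_smul, map_smul]
      simp only [inner_smul_left, inner_smul_right, Matrix.sub_apply, Matrix.hadamard_apply,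
        Matrix.submatrix_apply]
      have h3 := key k hkz i j
      rw [hx]
      linear_combination (conj (α i) * α j) * h3
    rw [h2, Complex.sub_re] at h1
    unfold Q
    linarith)
  have h1 := hOP N F z hz S hS2 x
  have h2 : Q (red k z) F (fun i => S i (x i)) = (pr C ((red k z).submatrix (fun i : F => (i : X)) (fun i : F => (i : X)))).re := by
    unfold Q pr
    congr 1
    rw [← Finset.sum_coe_sort F]
    refine Finset.sum_congr rfl fun i _ => ?_
    rw [← Finset.sum_coe_sort F]
    refine Finset.sum_congr rfl fun j _ => ?_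
    show red k z i j * ⟪S i (x i), S j (x j)⟫_ℂ = _
    rw [hS1 i i.2 _ (Submodule.mem_span_singleton_self _), hS1 j j.2 _ (Submodule.mem_span_singleton_self _)]
    exact key (red k z) hrkz i j
  have h3 : Q (red l z) F x = (pr B ((red l z).submatrix (fun i : F => (i : X)) (fun i : F => (i : X)))).re := by
    unfold Q pr
    congr 1
    rw [← Finset.sum_coe_sort F]
    refine Finset.sum_congr rfl fun i _ => ?_
    rw [← Finset.sum_coe_sort F]
    refine Finset.sum_congr rfl fun j _ => ?_
    rw [hx, mul_comm]; rfl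
  rw [h2, h3] at h1
  exact h1

lemma psd_entry_le {g : Matrix X X ℂ} (hg : g.PosSemidef) (h1 : ∀ x, (g x x).re ≤ 1) (x y : X) :
    ‖g x y‖ ≤ 1 := by
  classical
  by_cases hxy : x = y
  · subst hxy
    rw [psd_diag_eq hg x, Complex.norm_real, Real.norm_of_nonneg (psd_diag_re hg x)]
    exact h1 x
  by_cases h0 : g x y = 0
  · rw [h0, norm_zero]; exact zero_le_one
  have hn : (‖g x y‖ : ℂ) ≠ 0 := by simpa using h0
  have h := psd_sum hg {x, y} (fun a => if a = x then 1 else -(conj (g x y) / ‖g x y‖))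
  rw [Finset.sum_pair hxy, Finset.sum_pair hxy, Finset.sum_pair hxy] at h
  simp only [if_true, if_neg (Ne.symm hxy)] at h
  have e1 : g y x = conj (g x y) := (psd_herm hg x y).symm
  have e3 : g x y * conj (g x y) = (‖g x y‖ : ℂ) * ‖g x y‖ := by
    rw [Complex.mul_conj, Complex.normSq_eq_norm_sq]; push_cast; ring
  have e2 : (conj (1:ℂ) * g x x * 1 + conj (1:ℂ) * g x y * (-(conj (g x y) / ‖g x y‖)) +
      (conj (-(conj (g x y) / ‖g x y‖)) * g y x * 1 +
        conj (-(conj (g x y) / ‖g x y‖)) * g y y * (-(conj (g x y) / ‖g x y‖))))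
      = g x x + g y y - 2 * ‖g x y‖ := by
    rw [e1]
    simp only [map_one, map_neg, map_div₀, Complex.conj_conj, Complex.conj_ofReal]
    field_simp
    linear_combination (g y y - 2 * ‖g x y‖) * e3
  rw [e2] at h
  simp only [Complex.sub_re, Complex.add_re, Complex.mul_re, Complex.ofReal_re, Complex.ofReal_im,
    Complex.re_ofNat, Complex.im_ofNat, mul_zero, sub_zero] at h
  linarith [h1 x, h1 y]

end fincert

end Pool.Agent.H770R3.Shim
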