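import Pool.Agent.H770R3.ShimE

set_option autoImplicit false

namespace Pool.Agent.H770R3.Shim

open scoped InnerProductSpace ComplexOrder ComplexConjugate Topology
open Matrix Filter

section compactness
variable {X : Type*}

/-- extension by zero of a matrix indexed by a finite set -/
noncomputable def extz [DecidableEq X] (F : Finset X) (p : Matrix F F ℂ) : Matrix X X ℂ :=
  Matrix.of fun x y => if hx : x ∈ F then (if hy : y ∈ F then p ⟨x, hx⟩ ⟨y, hy⟩ else 0) else 0

lemma extz_apply [DecidableEq X] {F : Finset X} (p : Matrix F F ℂ) {x y : X} (hx : x ∈ F) (hy : y ∈ F) :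
    extz F p x y = p ⟨x, hx⟩ ⟨y, hy⟩ := by simp [extz, hx, hy]

lemma extz_row [DecidableEq X] {F : Finset X} (p : Matrix F F ℂ) {x : X} (hx : x ∉ F) (y : X) :
    extz F p x y = 0 := by simp [extz, hx]

lemma extz_col [DecidableEq X] {F : Finset X} (p : Matrix F F ℂ) {y : X} (hy : y ∉ F) (x : X) :
    extz F p x y = 0 := by simp [extz, hy]

lemma extz_psd [DecidableEq X] {F : Finset X} {p : Matrix F F ℂ} (hp : p.PosSemidef) :
    (extz F p).PosSemidef := by
  refine psd_of_sum ?_ fun G c => ?_
  · intro x y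
    by_cases hx : x ∈ F
    · by_cases hy : y ∈ F
      · rw [extz_apply p hx hy, extz_apply p hy hx, psd_herm hp]
      · rw [extz_col p hy, extz_row p hy, map_zero]
    · rw [extz_row p hx, extz_col p hx, map_zero]
  · have h1 := psd_sum hp Finset.univ (fun i => if (i : X) ∈ G then c i else 0)
    have h2 : (∑ i ∈ G, ∑ j ∈ G, conj (c i) * extz F p i j * c j)
        = ∑ i : F, ∑ j : F, conj (if (i : X) ∈ G then c i else 0) * p i j
          * (if (j : X) ∈ G then c j else 0) := by
      have h3 : ∀ i, (∑ j ∈ G, conj (c i) * extz F p i j * c j)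
          = ∑ j : F, if (j : X) ∈ G then conj (c i) * extz F p i j * c j else 0 := by
        intro i
        rw [Finset.sum_coe_sort F (fun j => if j ∈ G then conj (c i) * extz F p i j * c j else 0),
          ← Finset.sum_filter]
        symm
        refine Finset.sum_subset (fun j hj => (Finset.mem_filter.mp hj).2) fun j hj hj' => ?_
        have : j ∉ F := fun hF => hj' (Finset.mem_filter.mpr ⟨hF, hj⟩)
        rw [extz_col p this, mul_zero, zero_mul]
      have h4 : (∑ i ∈ G, ∑ j ∈ G, conj (c i) * extz F p i j * c j)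
          = ∑ i : F, if (i : X) ∈ G then (∑ j ∈ G, conj (c i) * extz F p i j * c j) else 0 := by
        rw [Finset.sum_coe_sort F (fun i => if i ∈ G then (∑ j ∈ G, conj (c i) * extz F p i j * c j) else 0),
          ← Finset.sum_filter]
        symm
        refine Finset.sum_subset (fun j hj => (Finset.mem_filter.mp hj).2) fun i hi hi' => ?_
        have : i ∉ F := fun hF => hi' (Finset.mem_filter.mpr ⟨hF, hi⟩)
        exact Finset.sum_eq_zero fun j _ => by rw [extz_row p this, mul_zero, zero_mul]
      rw [h4]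
      refine Finset.sum_congr rfl fun i _ => ?_
      by_cases hi : (i : X) ∈ G
      · rw [if_pos hi, h3]
        refine Finset.sum_congr rfl fun j _ => ?_
        by_cases hj : (j : X) ∈ G
        · rw [if_pos hj, extz_apply p i.2 j.2]
          simp [hi, hj]
        · simp [hj]
      · simp [hi]
    rw [h2]
    exact h1

/-- if the rows and columns outside `D` vanish, the quadratic form over `G` only involves
`G ∩ D` -/
lemma sum_inter [DecidableEq X] (g : Matrix X X ℂ) (D G : Finset X)
    (h1 : ∀ x ∈ G, x ∉ D → ∀ y, g x y = 0) (h2 : ∀ x ∈ G, x ∉ D → ∀ y, g y x = 0) (c : X → ℂ) :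
    (∑ i ∈ G, ∑ j ∈ G, conj (c i) * g i j * c j)
      = ∑ i ∈ G ∩ D, ∑ j ∈ G ∩ D, conj (c i) * g i j * c j := by
  rw [← Finset.sum_subset (Finset.inter_subset_left (s₁ := G) (s₂ := D))]
  · refine Finset.sum_congr rfl fun i _ => ?_
    rw [← Finset.sum_subset (Finset.inter_subset_left (s₁ := G) (s₂ := D))]
    intro j hj hj'
    rw [h2 j hj (fun hD => hj' (Finset.mem_inter.mpr ⟨hj, hD⟩)), mul_zero, zero_mul]
  · intro i hi hi'
    refine Finset.sum_eq_zero fun j _ => ?_
    rw [h1 i hi (fun hD => hi' (Finset.mem_inter.mpr ⟨hi, hD⟩)), mul_zero, zero_mul]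

lemma sum_sub_coe [DecidableEq X] {F G : Finset X} (hGF : G ⊆ F) (g : Matrix X X ℂ) (c : X → ℂ)
    (M : Matrix F F ℂ) (hM : ∀ i j : F, M i j = g i j) (hp : M.PosSemidef) :
    0 ≤ (∑ i ∈ G, ∑ j ∈ G, conj (c i) * g i j * c j).re := by
  have h1 := psd_sum hp (G.subtype (· ∈ F)) (fun i => c i)
  have e : ∀ f : X → ℂ, (∑ i ∈ G.subtype (· ∈ F), f i) = ∑ i ∈ G, f i := by
    intro f
    rw [← Finset.sum_subtype_of_mem (s := G) (p := (· ∈ F)) f (fun x hx => hGF hx)]
  have h2 : (∑ i ∈ G.subtype (· ∈ F), ∑ j ∈ G.subtype (· ∈ F), conj (c i) * M i j * c j)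
      = ∑ i ∈ G, ∑ j ∈ G, conj (c i) * g i j * c j := by
    rw [← e]
    refine Finset.sum_congr rfl fun i _ => ?_
    rw [← e]
    refine Finset.sum_congr rfl fun j _ => ?_
    rw [hM]
  rw [h2] at h1
  exact h1

/-- the certificate on the whole set -/
theorem cert {k l : Matrix X X ℂ} (hk : k.PosSemidef) (hl : l.PosSemidef)
    (hl0 : ∀ x, l x x = 0 → k x x = 0) (hOP : ∀ N, OnePoint N k l) (z : X) :
    ∃ p : Matrix X X ℂ, p.PosSemidef ∧ (red l z - p ⊙ l).PosSemidef ∧
      (p ⊙ k - red k z).PosSemidef := by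
  classical
  by_cases hzz : l z z = 0
  · -- both kernels vanish at `z`
    have hkz := hl0 z hzz
    have hone : (Matrix.of fun _ _ => (1 : ℂ) : Matrix X X ℂ).PosSemidef := by
      refine psd_of_sum (fun x y => by simp) fun G c => ?_
      have : (∑ i ∈ G, ∑ j ∈ G, conj (c i) * (Matrix.of fun _ _ => (1 : ℂ) : Matrix X X ℂ) i j * c j)
          = conj (∑ i ∈ G, c i) * ∑ i ∈ G, c i := by
        simp only [Matrix.of_apply, mul_one, map_sum]
        rw [Finset.sum_mul_sum]
      rw [this, ← Complex.normSq_eq_conj_mul_self, Complex.ofReal_re]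
      exact Complex.normSq_nonneg _
    refine ⟨_, hone, ?_, ?_⟩
    · have : red l z - (Matrix.of fun _ _ => (1 : ℂ) : Matrix X X ℂ) ⊙ l = 0 := by
        ext x y
        simp [red, hzz]
      rw [this]
      exact Matrix.PosSemidef.zero
    · have : (Matrix.of fun _ _ => (1 : ℂ) : Matrix X X ℂ) ⊙ k - red k z = 0 := by
        ext x y
        simp [red, hkz]
      rw [this]
      exact Matrix.PosSemidef.zero
  let D : Finset X → Finset X := fun F => (F.filter fun x => l x x ≠ 0).erase z
  have hDz : ∀ F, z ∉ D F := fun F => Finset.notMem_erase z _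
  have hDl : ∀ F, ∀ x ∈ D F, l x x ≠ 0 := fun F x hx =>
    (Finset.mem_filter.mp (Finset.mem_of_mem_erase hx)).2
  have hDF : ∀ F x, x ∈ F → x ∉ D F → x = z ∨ l x x = 0 := by
    intro F x hxF hx
    by_contra hcon
    push Not at hcon
    exact hx (Finset.mem_erase.mpr ⟨hcon.1, Finset.mem_filter.mpr ⟨hxF, hcon.2⟩⟩)
  choose q hq using fun F : Finset X => fin_cert hk hl hOP (D F) (hDl F) z (hDz F)
  let P : Finset X → Matrix X X ℂ := fun F => extz (D F) (q F)
  have hPpsd : ∀ F, (P F).PosSemidef := fun F => extz_psd (hq F).1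
  have hPr : ∀ F x, x ∉ D F → ∀ y, P F x y = 0 := fun F x hx y => extz_row _ hx y
  have hPc : ∀ F x, x ∉ D F → ∀ y, P F y x = 0 := fun F x hx y => extz_col _ hx y
  have hlr : ∀ F x, x ∈ F → x ∉ D F → ∀ y, (red l z - P F ⊙ l) x y = 0 ∧ (red l z - P F ⊙ l) y x = 0 := by
    intro F x hxF hx y
    simp only [Matrix.sub_apply, Matrix.hadamard_apply, hPr F x hx, hPc F x hx, zero_mul, sub_zero]
    rcases hDF F x hxF hx with h | h
    · rw [h]; exact ⟨red_zero_row hl z y, red_zero_col hl z y⟩
    · simp only [red, Matrix.of_apply]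
      rw [psd_zero_row hl h y, psd_zero_row hl h z, psd_zero_col hl h y, psd_zero_col hl h z]
      simp
  have hkr : ∀ F x, x ∈ F → x ∉ D F → ∀ y, (P F ⊙ k - red k z) x y = 0 ∧ (P F ⊙ k - red k z) y x = 0 := by
    intro F x hxF hx y
    simp only [Matrix.sub_apply, Matrix.hadamard_apply, hPr F x hx, hPc F x hx, zero_mul, zero_sub,
      neg_eq_zero]
    rcases hDF F x hxF hx with h | h
    · rw [h]; exact ⟨red_zero_row hk z y, red_zero_col hk z y⟩
    · have h' := hl0 x h
      simp only [red, Matrix.of_apply]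
      rw [psd_zero_row hk h' y, psd_zero_row hk h' z, psd_zero_col hk h' y, psd_zero_col hk h' z]
      simp
  have hPl : ∀ (F G : Finset X) (c : X → ℂ), G ⊆ F →
      0 ≤ (∑ i ∈ G, ∑ j ∈ G, conj (c i) * (red l z - P F ⊙ l) i j * c j).re := by
    intro F G c hGF
    rw [sum_inter (red l z - P F ⊙ l) (D F) G (fun x hx hxD y => (hlr F x (hGF hx) hxD y).1)
      (fun x hx hxD y => (hlr F x (hGF hx) hxD y).2)]
    refine sum_sub_coe Finset.inter_subset_right _ c _ ?_ (hq F).2.1
    intro i j
    simp only [Matrix.sub_apply, Matrix.hadamard_apply, Matrix.submatrix_apply, P,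
      extz_apply (q F) i.2 j.2]
  have hPk : ∀ (F G : Finset X) (c : X → ℂ), G ⊆ F →
      0 ≤ (∑ i ∈ G, ∑ j ∈ G, conj (c i) * (P F ⊙ k - red k z) i j * c j).re := by
    intro F G c hGF
    rw [sum_inter (P F ⊙ k - red k z) (D F) G (fun x hx hxD y => (hkr F x (hGF hx) hxD y).1)
      (fun x hx hxD y => (hkr F x (hGF hx) hxD y).2)]
    refine sum_sub_coe Finset.inter_subset_right _ c _ ?_ (hq F).2.2
    intro i j
    simp only [Matrix.sub_apply, Matrix.hadamard_apply, Matrix.submatrix_apply, P,
      extz_apply (q F) i.2 j.2]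
  have hdiag : ∀ F x, (P F x x).re ≤ 1 := by
    intro F x
    by_cases hx : x ∈ D F
    · have h1 := psd_diag_re (hq F).2.1 ⟨x, hx⟩
      simp only [Matrix.sub_apply, Matrix.hadamard_apply, Matrix.submatrix_apply, Complex.sub_re] at h1
      have h2 := red_diag_le hl z x
      have h3 : (q F ⟨x, hx⟩ ⟨x, hx⟩ * l x x).re = (q F ⟨x, hx⟩ ⟨x, hx⟩).re * (l x x).re := by
        conv_lhs => rw [psd_diag_eq hl x]
        rw [Complex.re_mul_ofReal]
      rw [h3] at h1
      have h4 : 0 < (l x x).re := by
        rcases (psd_diag_re hl x).lt_or_eq with h | h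
        · exact h
        · exact absurd (by rw [psd_diag_eq hl x, ← h]; simp) (hDl F x hx)
      simp only [P, extz_apply (q F) hx hx]
      by_contra hcon
      push Not at hcon
      nlinarith
    · simp [P, extz_row (q F) hx]
  have hbd : ∀ F x y, P F x y ∈ Metric.closedBall (0 : ℂ) 1 := by
    intro F x y
    rw [mem_closedBall_zero_iff]
    exact psd_entry_le (hPpsd F) (hdiag F) x y
  let U : Ultrafilter (Finset X) := Ultrafilter.of atTop
  have hU : (U : Filter (Finset X)) ≤ atTop := Ultrafilter.of_le atTop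
  have hlim : ∀ x y, ∃ a : ℂ, Tendsto (fun F => P F x y) U (𝓝 a) := by
    intro x y
    obtain ⟨a, _, ha⟩ := (isCompact_closedBall (0 : ℂ) 1).ultrafilter_le_nhds
      (U.map fun F => P F x y) (by
        rw [Ultrafilter.coe_map, Filter.le_principal_iff]
        exact Filter.mem_map.mpr (Filter.univ_mem' fun F => hbd F x y))
    exact ⟨a, ha⟩
  choose p hp using hlim
  have hev : ∀ G : Finset X, ∀ᶠ F in (U : Filter (Finset X)), G ⊆ F := fun G =>
    hU (eventually_ge_atTop G)
  refine ⟨Matrix.of p, ?_, ?_, ?_⟩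
  · refine psd_of_sum ?_ fun G c => ?_
    · intro x y
      have h1 : Tendsto (fun F => conj (P F x y)) U (𝓝 (conj (p x y))) :=
        (Complex.continuous_conj.tendsto _).comp (hp x y)
      have h2 : (fun F => conj (P F x y)) = fun F => P F y x := by
        ext F; exact psd_herm (hPpsd F) x y
      rw [h2] at h1
      exact tendsto_nhds_unique h1 (hp y x)
    · have h1 : Tendsto (fun F => (∑ i ∈ G, ∑ j ∈ G, conj (c i) * P F i j * c j).re) U
          (𝓝 (∑ i ∈ G, ∑ j ∈ G, conj (c i) * p i j * c j).re) := by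
        refine (Complex.continuous_re.tendsto _).comp ?_
        refine tendsto_finsetSum _ fun i _ => tendsto_finsetSum _ fun j _ => ?_
        exact ((hp i j).const_mul _).mul_const _
      exact ge_of_tendsto h1 (Filter.Eventually.of_forall fun F => psd_sum (hPpsd F) G c)
  · refine psd_of_sum ?_ fun G c => ?_
    · intro x y
      have h1 : conj (p x y) = p y x := by
        have h1 : Tendsto (fun F => conj (P F x y)) U (𝓝 (conj (p x y))) :=
          (Complex.continuous_conj.tendsto _).comp (hp x y)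
        have h2 : (fun F => conj (P F x y)) = fun F => P F y x := by
          ext F; exact psd_herm (hPpsd F) x y
        rw [h2] at h1
        exact tendsto_nhds_unique h1 (hp y x)
      simp only [Matrix.sub_apply, Matrix.hadamard_apply, Matrix.of_apply, map_sub, map_mul,
        red_herm hl, psd_herm hl, h1]
    · have h1 : Tendsto (fun F => (∑ i ∈ G, ∑ j ∈ G, conj (c i) * (red l z - P F ⊙ l) i j * c j).re) U
          (𝓝 (∑ i ∈ G, ∑ j ∈ G, conj (c i) * (red l z - Matrix.of p ⊙ l) i j * c j).re) := by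
        refine (Complex.continuous_re.tendsto _).comp ?_
        refine tendsto_finsetSum _ fun i _ => tendsto_finsetSum _ fun j _ => ?_
        refine (Tendsto.const_mul _ ?_).mul_const _
        simp only [Matrix.sub_apply, Matrix.hadamard_apply, Matrix.of_apply]
        exact tendsto_const_nhds.sub ((hp i j).mul_const _)
      exact ge_of_tendsto h1 ((hev G).mono fun F hF => hPl F G c hF)
  · refine psd_of_sum ?_ fun G c => ?_
    · intro x y
      have h1 : conj (p x y) = p y x := by
        have h1 : Tendsto (fun F => conj (P F x y)) U (𝓝 (conj (p x y))) :=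
          (Complex.continuous_conj.tendsto _).comp (hp x y)
        have h2 : (fun F => conj (P F x y)) = fun F => P F y x := by
          ext F; exact psd_herm (hPpsd F) x y
        rw [h2] at h1
        exact tendsto_nhds_unique h1 (hp y x)
      simp only [Matrix.sub_apply, Matrix.hadamard_apply, Matrix.of_apply, map_sub, map_mul,
        red_herm hk, psd_herm hk, h1]
    · have h1 : Tendsto (fun F => (∑ i ∈ G, ∑ j ∈ G, conj (c i) * (P F ⊙ k - red k z) i j * c j).re) U
          (𝓝 (∑ i ∈ G, ∑ j ∈ G, conj (c i) * (Matrix.of p ⊙ k - red k z) i j * c j).re) := by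
        refine (Complex.continuous_re.tendsto _).comp ?_
        refine tendsto_finsetSum _ fun i _ => tendsto_finsetSum _ fun j _ => ?_
        refine (Tendsto.const_mul _ ?_).mul_const _
        simp only [Matrix.sub_apply, Matrix.hadamard_apply, Matrix.of_apply]
        exact ((hp i j).mul_const _).sub tendsto_const_nhds
      exact ge_of_tendsto h1 ((hev G).mono fun F hF => hPk F G c hF)

end compactness

end Pool.Agent.H770R3.Shim
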